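import Pool.Agent.Y552.SJ.Stm2

/-!
# Thickening of the supports of a primitive matrix (job SJ-THK)
-/

set_option autoImplicit false

namespace Pool.Agent.Y15.SJ.Thk

open Matrix Finset Filter

theorem exists_small (S : Subring ℝ) (hS : S ≠ ⊥) : ∃ y ∈ S, 0 < y ∧ y < 1 := by
  by_contra hcon
  push Not at hcon
  apply hS
  rw [eq_bot_iff]
  intro s hs
  have h1 : Int.fract s ∈ S := by
    have : Int.fract s = s - (⌊s⌋ : ℝ) := rfl
    rw [this]
    exact S.sub_mem hs (intCast_mem S ⌊s⌋)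
  have h2 : Int.fract s = 0 := by
    by_contra h
    have h3 : 0 < Int.fract s := lt_of_le_of_ne (Int.fract_nonneg s) (Ne.symm h)
    exact absurd (Int.fract_lt_one s) (not_lt.2 (hcon _ h1 h3))
  rw [Subring.mem_bot]
  refine ⟨⌊s⌋, ?_⟩
  have := Int.floor_add_fract s
  rw [h2, add_zero] at this
  exact this

theorem exists_x (S : Subring ℝ) (hS : S ≠ ⊥) (q : ℕ) (M : Matrix (Fin q) (Fin q) ℝ) :
    ∃ x ∈ S, 0 < x ∧ (q : ℝ) * x < 1 ∧ ∀ k l, 0 < M k l → x < M k l := by
  obtain ⟨y, hy, hy0, hy1⟩ := exists_small S hS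
  have ht := tendsto_pow_atTop_nhds_zero_of_lt_one hy0.le hy1
  have h1 : ∀ᶠ n : ℕ in atTop, (q : ℝ) * y ^ n < 1 := by
    have := ht.const_mul (q : ℝ)
    rw [mul_zero] at this
    exact this.eventually_lt_const one_pos
  have h2 : ∀ᶠ n : ℕ in atTop, ∀ k l, 0 < M k l → y ^ n < M k l := by
    rw [eventually_all]
    intro k
    rw [eventually_all]
    intro l
    by_cases h : 0 < M k l
    · filter_upwards [ht.eventually_lt_const h] with n hn _ using hn
    · exact Eventually.of_forall fun n h' => absurd h' h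
  obtain ⟨n, hn1, hn2⟩ := (h1.and h2).exists
  exact ⟨y ^ n, S.pow_mem hy n, pow_pos hy0 n, hn1, hn2⟩

section constr

variable {q : ℕ}

open Classical in
/-- the reduced entries -/
noncomputable def gg (M : Matrix (Fin q) (Fin q) ℝ) (x : ℝ) (k l : Fin q) : ℝ :=
  M k l - (if 0 < M k l then x else 0)

open Classical in
/-- the left factor -/
noncomputable def TT (M : Matrix (Fin q) (Fin q) ℝ) (x : ℝ) :
    Matrix (Fin q × Option (Fin q)) (Fin q) ℝ :=
  fun a l => gg M x a.1 l + (if a.2 = some l ∧ 0 < M a.1 l then 1 else 0)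

/-- the weights -/
noncomputable def rr (q : ℕ) (x : ℝ) : Option (Fin q) → ℝ
  | none => 1 - q * x
  | some _ => x

/-- the right factor -/
noncomputable def RR (q : ℕ) (x : ℝ) : Matrix (Fin q) (Fin q × Option (Fin q)) ℝ :=
  fun k b => if k = b.1 then rr q x b.2 else 0

theorem mul_RR {m : Type} (x : ℝ) (A : Matrix m (Fin q) ℝ) (a : m)
    (b : Fin q × Option (Fin q)) : (A * RR q x) a b = A a b.1 * rr q x b.2 := by
  rw [Matrix.mul_apply]
  simp [RR]

theorem RR_mul_TT (M : Matrix (Fin q) (Fin q) ℝ) (x : ℝ) : RR q x * TT M x = M := by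
  classical
  ext k l
  rw [Matrix.mul_apply, Fintype.sum_prod_type]
  have h1 : ∀ k' : Fin q, ∑ o : Option (Fin q), RR q x k (k', o) * TT M x (k', o) l =
      if k = k' then ∑ o : Option (Fin q), rr q x o * TT M x (k', o) l else 0 := by
    intro k'
    by_cases h : k = k'
    · simp [RR, h]
    · simp [RR, h]
  simp only [h1, Finset.sum_ite_eq, Finset.mem_univ, if_true]
  rw [Fintype.sum_option]
  simp only [rr, TT]
  by_cases hP : 0 < M k l
  · have h2 : ∀ j : Fin q, x * (gg M x k l + if some j = some l ∧ 0 < M k l then 1 else 0) =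
        x * gg M x k l + if j = l then x else 0 := by
      intro j
      by_cases hj : j = l
      · simp [hj, hP, mul_add]
      · simp [hj]
    rw [Finset.sum_congr rfl fun j _ => h2 j, Finset.sum_add_distrib]
    simp [gg, hP]
    ring
  · have h2 : ∀ j : Fin q, x * (gg M x k l + if some j = some l ∧ 0 < M k l then 1 else 0) =
        x * gg M x k l := by
      intro j
      simp [hP]
    rw [Finset.sum_congr rfl fun j _ => h2 j]
    simp [gg, hP]
    ring

theorem pow_TR (M : Matrix (Fin q) (Fin q) ℝ) (x : ℝ) (m : ℕ) :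
    (TT M x * RR q x) ^ (m + 1) = TT M x * M ^ m * RR q x := by
  induction m with
  | zero => simp
  | succ m ih =>
    rw [pow_succ, ih]
    calc TT M x * M ^ m * RR q x * (TT M x * RR q x)
        = TT M x * (M ^ m * (RR q x * TT M x)) * RR q x := by simp only [Matrix.mul_assoc]
      _ = TT M x * M ^ (m + 1) * RR q x := by rw [RR_mul_TT, ← pow_succ]

theorem pow_nn {M : Matrix (Fin q) (Fin q) ℝ} (hM : ∀ i j, 0 ≤ M i j) (m : ℕ) (i j : Fin q) :
    0 ≤ (M ^ m) i j := by
  induction m generalizing i j with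
  | zero =>
    rw [pow_zero, Matrix.one_apply]
    split_ifs <;> norm_num
  | succ m ih =>
    rw [pow_succ, Matrix.mul_apply]
    exact Finset.sum_nonneg fun l _ => mul_nonneg (ih i l) (hM l j)

theorem gg_nn {M : Matrix (Fin q) (Fin q) ℝ} {x : ℝ} (hM : ∀ i j, 0 ≤ M i j)
    (hx : ∀ k l, 0 < M k l → x < M k l) (k l : Fin q) : 0 ≤ gg M x k l := by
  unfold gg
  split_ifs with h
  · exact sub_nonneg.2 (hx k l h).le
  · rw [sub_zero]; exact hM k l

theorem TT_nn {M : Matrix (Fin q) (Fin q) ℝ} {x : ℝ} (hM : ∀ i j, 0 ≤ M i j)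
    (hx : ∀ k l, 0 < M k l → x < M k l) (a : Fin q × Option (Fin q)) (l : Fin q) :
    0 ≤ TT M x a l := by
  unfold TT
  refine add_nonneg (gg_nn hM hx _ _) ?_
  split_ifs <;> norm_num

theorem TT_pos {M : Matrix (Fin q) (Fin q) ℝ} {x : ℝ}
    (hx : ∀ k l, 0 < M k l → x < M k l) (a : Fin q × Option (Fin q)) (l : Fin q)
    (h : 0 < M a.1 l) : 0 < TT M x a l := by
  unfold TT
  refine add_pos_of_pos_of_nonneg ?_ ?_
  · unfold gg
    rw [if_pos h]
    exact sub_pos.2 (hx _ _ h)
  · split_ifs <;> norm_num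

theorem rr_pos {x : ℝ} (hx0 : 0 < x) (hq : (q : ℝ) * x < 1) (o : Option (Fin q)) :
    0 < rr q x o := by
  cases o with
  | none => exact sub_pos.2 hq
  | some j => exact hx0

theorem pow_pos' {M : Matrix (Fin q) (Fin q) ℝ} {x : ℝ} (hM : ∀ i j, 0 ≤ M i j) (hx0 : 0 < x)
    (hq : (q : ℝ) * x < 1) (hx : ∀ k l, 0 < M k l → x < M k l) (m : ℕ)
    (a b : Fin q × Option (Fin q)) (l : Fin q) (h1 : 0 < M a.1 l) (h2 : 0 < (M ^ m) l b.1) :
    0 < ((TT M x * RR q x) ^ (m + 1)) a b := by
  rw [pow_TR, mul_RR]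
  refine mul_pos ?_ (rr_pos hx0 hq _)
  rw [Matrix.mul_apply]
  exact Finset.sum_pos' (fun j _ => mul_nonneg (TT_nn hM hx a j) (pow_nn hM m j b.1))
    ⟨l, Finset.mem_univ l, mul_pos (TT_pos hx a l h1) h2⟩

end constr

/-- transport to the standard index types -/
theorem transp {q n : ℕ} (S : Subring ℝ) (M : Matrix (Fin q) (Fin q) ℝ) (v : Fin q → ℝ)
    {E : Type} [Fintype E] [DecidableEq E] (R : Matrix (Fin q) E ℝ) (T : Matrix E (Fin q) ℝ)
    (h1 : ∀ i j, R i j ∈ S) (h2 : ∀ i j, T i j ∈ S) (h3 : ∀ i j, 0 ≤ R i j)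
    (h4 : ∀ i j, 0 ≤ T i j) (h5 : ∃ p : ℕ, 0 < p ∧ ∀ i j, 0 < ((T * R) ^ p) i j)
    (h6 : M = R * T) (h7 : ∀ a, 0 < ∑ j, T a j * v j)
    (h8 : ∀ a, ∃ w : E → ℝ, (∀ b, w b ∈ S) ∧ (∀ b, ((T * R) ^ n) a b = 0 → w b = 0) ∧
      ∑ b, w b * (∑ j, T b j * v j) = 1) :
    ∃ (N : ℕ) (R : Matrix (Fin q) (Fin N) ℝ) (T : Matrix (Fin N) (Fin q) ℝ),
      (∀ i j, R i j ∈ S) ∧ (∀ i j, T i j ∈ S) ∧ (∀ i j, 0 ≤ R i j) ∧ (∀ i j, 0 ≤ T i j) ∧
        (∃ p : ℕ, 0 < p ∧ ∀ i j, 0 < ((T * R) ^ p) i j) ∧ M = R * T ∧ (∀ a, 0 < ∑ j, T a j * v j) ∧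
        (∀ a, ∃ w : Fin N → ℝ, (∀ b, w b ∈ S) ∧ (∀ b, ((T * R) ^ n) a b = 0 → w b = 0) ∧
          ∑ b, w b * (∑ j, T b j * v j) = 1) := by
  let e : E ≃ Fin (Fintype.card E) := Fintype.equivFin E
  let R' : Matrix (Fin q) (Fin (Fintype.card E)) ℝ := R.submatrix id e.symm
  let T' : Matrix (Fin (Fintype.card E)) (Fin q) ℝ := T.submatrix e.symm id
  have hTR : T' * R' = Matrix.reindexAlgEquiv ℝ ℝ e (T * R) := by
    ext a b
    simp [T', R', Matrix.mul_apply]
  have hpow : ∀ (m : ℕ) (a b : Fin (Fintype.card E)),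
      ((T' * R') ^ m) a b = ((T * R) ^ m) (e.symm a) (e.symm b) := by
    intro m a b
    rw [hTR, ← map_pow]
    rfl
  refine ⟨Fintype.card E, R', T', fun i j => h1 _ _, fun i j => h2 _ _, fun i j => h3 _ _,
    fun i j => h4 _ _, ?_, ?_, fun a => h7 _, ?_⟩
  · obtain ⟨p, hp, h⟩ := h5
    refine ⟨p, hp, fun i j => ?_⟩
    rw [hpow]
    exact h _ _
  · rw [h6]
    ext i j
    simp only [R', T', Matrix.mul_apply, Matrix.submatrix_apply, id]
    exact (Equiv.sum_comp e.symm (fun b => R i b * T b j)).symm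
  · intro a
    obtain ⟨w, hw1, hw2, hw3⟩ := h8 (e.symm a)
    refine ⟨fun b => w (e.symm b), fun b => hw1 _, fun b hb => ?_, ?_⟩
    · rw [hpow] at hb
      exact hw2 _ hb
    · rw [← hw3]
      exact Equiv.sum_comp e.symm (fun b => w b * (∑ j, T b j * v j))

theorem main : Pool.Agent.Y552.SJ.S_THK := by
  intro S hS q n M v hMS hM0 hvS hv hMv hprim hn hw
  classical
  obtain ⟨x, hxS, hx0, hqx, hxM⟩ := exists_x S hS q M
  obtain ⟨m, rfl⟩ : ∃ m, n = m + 1 := ⟨n - 1, by omega⟩
  obtain ⟨p, hp, hMp⟩ := hprim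
  have hpos_of : ∀ (A B : Matrix (Fin q) (Fin q) ℝ) (k l : Fin q), (∀ i j, 0 ≤ A i j) →
      (∀ i j, 0 ≤ B i j) → (A * B) k l ≠ 0 → ∃ j, 0 < A k j ∧ 0 < B j l := by
    intro A B k l hA hB h
    rw [Matrix.mul_apply] at h
    obtain ⟨j, -, hj⟩ := Finset.exists_ne_zero_of_sum_ne_zero h
    exact ⟨j, lt_of_le_of_ne (hA k j) (Ne.symm (left_ne_zero_of_mul hj)),
      lt_of_le_of_ne (hB j l) (Ne.symm (right_ne_zero_of_mul hj))⟩
  have hrow : ∀ k, ∃ l, 0 < M k l := by
    intro k
    obtain ⟨p', rfl⟩ : ∃ p', p = p' + 1 := ⟨p - 1, by omega⟩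
    have h := (hMp k k).ne'
    rw [pow_succ'] at h
    obtain ⟨j, hj, -⟩ := hpos_of M (M ^ p') k k hM0 (pow_nn hM0 p') h
    exact ⟨j, hj⟩
  have hqxS : 1 - (q : ℝ) * x ∈ S := S.sub_mem S.one_mem (S.mul_mem (natCast_mem S q) hxS)
  refine transp S M v (RR q x) (TT M x) ?_ ?_ ?_ (TT_nn hM0 hxM) ?_ (RR_mul_TT M x).symm ?_ ?_
  · rintro k ⟨k', o⟩
    simp only [RR]
    split_ifs
    · cases o with
      | none => exact hqxS
      | some j => exact hxS
    · exact S.zero_mem
  · intro a l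
    simp only [TT, gg]
    refine S.add_mem (S.sub_mem (hMS _ _) ?_) ?_
    · split_ifs
      · exact hxS
      · exact S.zero_mem
    · split_ifs
      · exact S.one_mem
      · exact S.zero_mem
  · intro k b
    simp only [RR]
    split_ifs
    · exact (rr_pos hx0 hqx _).le
    · exact le_rfl
  · refine ⟨p + 1, Nat.succ_pos p, fun a b => ?_⟩
    obtain ⟨l, hl⟩ := hrow a.1
    exact pow_pos' hM0 hx0 hqx hxM p a b l hl (hMp l b.1)
  · intro a
    obtain ⟨l, hl⟩ := hrow a.1
    exact Finset.sum_pos' (fun j _ => mul_nonneg (TT_nn hM0 hxM a j) (hv j).le)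
      ⟨l, Finset.mem_univ l, mul_pos (TT_pos hxM a l hl) (hv l)⟩
  · rintro ⟨k, o⟩
    obtain ⟨w, hw1, hw2, hw3⟩ := hw k
    have hπ : ∀ l, ∃ k', w l ≠ 0 → 0 < (M ^ (m + 1)) k k' ∧ 0 < M k' l := by
      intro l
      by_cases hl : w l = 0
      · exact ⟨l, fun h => absurd hl h⟩
      · have h1 : (M ^ (m + 1 + 1)) k l ≠ 0 := fun h => hl (hw2 l h)
        rw [pow_succ] at h1
        obtain ⟨j, hj1, hj2⟩ := hpos_of (M ^ (m + 1)) M k l (pow_nn hM0 _) hM0 h1
        exact ⟨j, fun _ => ⟨hj1, hj2⟩⟩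
    choose π hπ using hπ
    refine ⟨fun b => ∑ l, (if π l = b.1 then
      w l * ((if b.2 = some l then 1 else 0) - (if b.2 = none then 1 else 0)) else 0), ?_, ?_, ?_⟩
    · intro b
      refine S.sum_mem fun l _ => ?_
      split_ifs
      all_goals first
        | exact S.zero_mem
        | exact S.mul_mem (hw1 l) (S.sub_mem (by first | exact S.one_mem | exact S.zero_mem)
            (by first | exact S.one_mem | exact S.zero_mem))
    · intro b hb
      refine Finset.sum_eq_zero fun l _ => ?_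
      split_ifs with h
      all_goals try rfl
      all_goals
        have hwl : w l = 0 := by
          by_contra hne
          obtain ⟨h1, h2⟩ := hπ l hne
          rw [h] at h1
          rw [pow_succ'] at h1
          obtain ⟨j, hj1, hj2⟩ := hpos_of M (M ^ m) k b.1 hM0 (pow_nn hM0 m) h1.ne'
          exact (pow_pos' hM0 hx0 hqx hxM m (k, o) b j hj1 hj2).ne' hb
        rw [hwl, zero_mul]
    · refine Eq.trans (Fintype.sum_prod_type _) (Eq.trans ?_ hw3)
      beta_reduce
      have key : ∀ l, w l * v l = w l * ((∑ j, TT M x (π l, some l) j * v j) -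
          (∑ j, TT M x (π l, none) j * v j)) := by
        intro l
        by_cases hl : w l = 0
        · rw [hl, zero_mul, zero_mul]
        · congr 1
          have hP := (hπ l hl).2
          rw [← Finset.sum_sub_distrib]
          have h2 : ∀ j, TT M x (π l, some l) j * v j - TT M x (π l, none) j * v j =
              if l = j then v j else 0 := by
            intro j
            by_cases hj : l = j
            · subst hj
              simp [TT, hP]
              ring
            · have hj' : ¬ (some l = some j ∧ 0 < M (π l) j) := fun h => hj (Option.some.inj h.1)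
              simp [TT, hj]
          rw [Finset.sum_congr rfl fun j _ => h2 j]
          simp
      calc ∑ k' : Fin q, ∑ o' : Option (Fin q), (∑ l, (if π l = k' then
              w l * ((if o' = some l then 1 else 0) - (if o' = none then 1 else 0)) else 0)) *
              (∑ j, TT M x (k', o') j * v j)
          = ∑ k' : Fin q, ∑ l, ∑ o' : Option (Fin q), (if π l = k' then
              w l * ((if o' = some l then 1 else 0) - (if o' = none then 1 else 0)) else 0) *
              (∑ j, TT M x (k', o') j * v j) := by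
            refine Finset.sum_congr rfl fun k' _ => ?_
            rw [Finset.sum_comm]
            exact Finset.sum_congr rfl fun o' _ => Finset.sum_mul _ _ _
        _ = ∑ k' : Fin q, ∑ l, if π l = k' then w l * ((∑ j, TT M x (k', some l) j * v j) -
              (∑ j, TT M x (k', none) j * v j)) else 0 := by
            refine Finset.sum_congr rfl fun k' _ => Finset.sum_congr rfl fun l _ => ?_
            by_cases h : π l = k'
            · simp only [if_pos h]
              rw [Fintype.sum_option]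
              simp
              ring
            · simp only [if_neg h, zero_mul, Finset.sum_const_zero]
        _ = ∑ l, ∑ k' : Fin q, if π l = k' then w l * ((∑ j, TT M x (k', some l) j * v j) -
              (∑ j, TT M x (k', none) j * v j)) else 0 := Finset.sum_comm
        _ = ∑ l, w l * ((∑ j, TT M x (π l, some l) j * v j) -
              (∑ j, TT M x (π l, none) j * v j)) := by
            refine Finset.sum_congr rfl fun l _ => ?_
            rw [Finset.sum_ite_eq]
            simp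
        _ = ∑ l, w l * v l := Finset.sum_congr rfl fun l _ => (key l).symm

end Pool.Agent.Y15.SJ.Thk
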